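import Mathlib

/-!
# Basic notions of complexity theory

Polynomial time is Mathlib's `Turing.TM2ComputableInPolyTime` (Turing machines given as multi-stack
machines), for functions on bit strings.  Decision problems about structured data become languages
of bit strings through a standard encoding of the data by binary trees, written in preorder.
-/

namespace Pool.Agent.NPC

open Turing

/-- A function on bit strings is polynomial-time computable: some Turing machine (in the sense of
Mathlib) computes it in polynomially many steps. -/
def PolyTime (f : List Bool → List Bool) : Prop :=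
  Nonempty (TM2ComputableInPolyTime (id : List Bool → List Bool) (id : List Bool → List Bool) f)

/-- The pair of two bit strings, as a bit string: each bit of `x` is preceded by a `true`, then
comes a `false`, then `w`. -/
def pairBits (x w : List Bool) : List Bool := x.flatMap (fun b => [true, b]) ++ false :: w

/-- The class `NP`: languages with polynomially bounded certificates verifiable in polynomial
time. -/
def InNP (L : Set (List Bool)) : Prop :=
  ∃ (V : List Bool → List Bool) (p : Polynomial ℕ), PolyTime V ∧
    ∀ x, x ∈ L ↔ ∃ w : List Bool, w.length ≤ p.eval x.length ∧ V (pairBits x w) = [true]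

/-- Polynomial-time many-one reducibility of languages. -/
def Reduces (L L' : Set (List Bool)) : Prop :=
  ∃ f : List Bool → List Bool, PolyTime f ∧ ∀ x, x ∈ L ↔ f x ∈ L'

/-- `NP`-hardness of a language, under polynomial-time many-one reductions. -/
def NPHard (L : Set (List Bool)) : Prop := ∀ L', InNP L' → Reduces L' L

/-- Binary trees, used to encode structured data. -/
inductive T : Type
  | nil : T
  | node (l r : T) : T
  deriving DecidableEq, Inhabited

/-- The preorder code of a binary tree as a bit string. -/
def T.enc : T → List Bool
  | T.nil => [false]
  | T.node l r => true :: (l.enc ++ r.enc)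

theorem T.enc_append_inj : ∀ (a b : T) (r s : List Bool), a.enc ++ r = b.enc ++ s → a = b ∧ r = s
  | nil, nil, r, s, h => by simpa [enc] using h
  | nil, node _ _, r, s, h => by simp [enc] at h
  | node _ _, nil, r, s, h => by simp [enc] at h
  | node a a', node b b', r, s, h => by
    simp only [enc, List.cons_append, List.cons.injEq, true_and, List.append_assoc] at h
    obtain ⟨h1, h2⟩ := enc_append_inj a b _ _ h
    obtain ⟨h3, h4⟩ := enc_append_inj a' b' _ _ h2
    exact ⟨by rw [h1, h3], h4⟩

theorem T.enc_injective : Function.Injective T.enc := fun a b h =>
  (T.enc_append_inj a b [] [] (by simpa using h)).1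

/-- The tree coding a boolean. -/
def T.ofBool : Bool → T
  | false => T.nil
  | true => T.node T.nil T.nil

/-- The tree coding a list of trees. -/
def T.ofList : List T → T
  | [] => T.nil
  | a :: l => T.node a (T.ofList l)

/-- Types encoded (injectively) by binary trees. -/
class TEnc (α : Type) where
  /-- the tree coding an element -/
  toT : α → T
  /-- the coding is injective -/
  inj : Function.Injective toT

export TEnc (toT)

/-- The bit string coding an element of an encodable type. -/
def bits {α : Type} [TEnc α] (a : α) : List Bool := (toT a).enc

instance : TEnc T := ⟨fun t => t, fun _ _ h => h⟩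

instance : TEnc Unit := ⟨fun _ => T.nil, fun _ _ _ => rfl⟩

instance : TEnc Bool := ⟨T.ofBool, fun a b h => by cases a <;> cases b <;> simp [T.ofBool] at h ⊢⟩

/-- Pairs are coded by nodes. -/
instance {α β : Type} [TEnc α] [TEnc β] : TEnc (α × β) :=
  ⟨fun p => T.node (toT p.1) (toT p.2), fun p q h => by
    simp only [T.node.injEq] at h
    exact Prod.ext (TEnc.inj h.1) (TEnc.inj h.2)⟩

/-- `none` is coded by the empty tree and `some a` by a node. -/
instance {α : Type} [TEnc α] : TEnc (Option α) :=
  ⟨fun o => match o with | none => T.nil | some a => T.node (toT a) T.nil, fun p q h => by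
    cases p <;> cases q <;> simp only [T.node.injEq, reduceCtorEq] at h ⊢
    exact congrArg some (TEnc.inj h.1)⟩

/-- The tree coding an element of a sum type. -/
def T.ofSum {α β : Type} [TEnc α] [TEnc β] : α ⊕ β → T
  | Sum.inl a => T.node T.nil (toT a)
  | Sum.inr b => T.node (T.node T.nil T.nil) (toT b)

instance {α β : Type} [TEnc α] [TEnc β] : TEnc (α ⊕ β) :=
  ⟨T.ofSum, fun p q h => by
    cases p <;> cases q <;> simp only [T.ofSum, T.node.injEq, reduceCtorEq, false_and,
      true_and] at h ⊢
    · exact congrArg Sum.inl (TEnc.inj h)
    · exact congrArg Sum.inr (TEnc.inj h)⟩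

theorem T.ofList_injective : Function.Injective T.ofList
  | [], [], _ => rfl
  | [], _ :: _, h => by simp [T.ofList] at h
  | _ :: _, [], h => by simp [T.ofList] at h
  | a :: l, b :: l', h => by
    simp only [T.ofList, T.node.injEq] at h
    rw [h.1, T.ofList_injective h.2]

/-- Lists are coded by right combs. -/
instance {α : Type} [TEnc α] : TEnc (List α) :=
  ⟨fun l => T.ofList (l.map toT), fun _ _ h =>
    List.map_injective_iff.2 TEnc.inj (T.ofList_injective h)⟩

/-- Natural numbers are coded in binary. -/
instance : TEnc ℕ := ⟨fun n => toT n.bits, fun m n h => by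
  have : m.bits = n.bits := TEnc.inj h
  have h2 : Nat.digits 2 m = Nat.digits 2 n := by
    rw [Nat.digits_two_eq_bits, Nat.digits_two_eq_bits, this]
  exact Nat.digits_inj_iff.1 h2⟩

/-- Integers are coded in binary, with a sign. -/
instance : TEnc ℤ := ⟨fun n => toT (decide (n < 0), n.natAbs), fun m n h => by
  have h1 := TEnc.inj h
  simp only [Prod.mk.injEq, decide_eq_decide] at h1
  omega⟩

/-- Rational numbers are coded by numerator and denominator. -/
instance : TEnc ℚ := ⟨fun q => toT (q.num, q.den), fun p q h => by
  have h1 := TEnc.inj h
  simp only [Prod.mk.injEq] at h1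
  exact Rat.ext h1.1 h1.2⟩

/-- The language of a decision problem about encodable data. -/
def lang {α : Type} [TEnc α] (P : α → Prop) : Set (List Bool) := {x | ∃ a, bits a = x ∧ P a}

/-- `NP`-hardness of a decision problem about encodable data. -/
def NPHardP {α : Type} [TEnc α] (P : α → Prop) : Prop := NPHard (lang P)

/-- Membership in `NP` of a decision problem about encodable data. -/
def InNPP {α : Type} [TEnc α] (P : α → Prop) : Prop := InNP (lang P)

end Pool.Agent.NPC
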