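import Pool.Agent.KS6_49.L8.NPC.Tree

/-!
# Encodable types and polynomial-time functions between them
-/

namespace Pool.Agent.NPC

/-- The length of the bit string coding an element. -/
def sz {α : Type} [TEnc α] (a : α) : ℕ := (toT a).size

theorem bits_length {α : Type} [TEnc α] (a : α) : (bits a).length = sz a := rfl

theorem bits_injective {α : Type} [TEnc α] : Function.Injective (bits : α → List Bool) :=
  T.enc_injective.comp TEnc.inj

section Simp

variable {α β : Type} [TEnc α] [TEnc β]

@[simp] theorem toT_T (t : T) : toT t = t := rfl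
@[simp] theorem toT_unit (u : Unit) : toT u = T.nil := rfl
@[simp] theorem toT_true : toT true = T.node T.nil T.nil := rfl
@[simp] theorem toT_false : toT false = T.nil := rfl
@[simp] theorem toT_pair (a : α) (b : β) : toT (a, b) = T.node (toT a) (toT b) := rfl
@[simp] theorem toT_none : toT (none : Option α) = T.nil := rfl
@[simp] theorem toT_some (a : α) : toT (some a) = T.node (toT a) T.nil := rfl
@[simp] theorem toT_inl (a : α) : toT (Sum.inl a : α ⊕ β) = T.node T.nil (toT a) := rfl
@[simp] theorem toT_inr (b : β) : toT (Sum.inr b : α ⊕ β) = T.node (T.node T.nil T.nil) (toT b) :=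
  rfl
@[simp] theorem toT_list_nil : toT ([] : List α) = T.nil := rfl
@[simp] theorem toT_list_cons (a : α) (l : List α) : toT (a :: l) = T.node (toT a) (toT l) := rfl
theorem toT_nat (n : ℕ) : toT n = toT n.bits := rfl

@[simp] theorem sz_unit (u : Unit) : sz u = 1 := rfl
@[simp] theorem sz_true : sz true = 3 := rfl
@[simp] theorem sz_false : sz false = 1 := rfl
@[simp] theorem sz_pair (a : α) (b : β) : sz (a, b) = sz a + sz b + 1 := by simp [sz]
@[simp] theorem sz_none : sz (none : Option α) = 1 := rfl
@[simp] theorem sz_some (a : α) : sz (some a) = sz a + 2 := by simp [sz]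
@[simp] theorem sz_inl (a : α) : sz (Sum.inl a : α ⊕ β) = sz a + 2 := by simp [sz]; omega
@[simp] theorem sz_inr (b : β) : sz (Sum.inr b : α ⊕ β) = sz b + 4 := by simp [sz]; omega
@[simp] theorem sz_list_nil : sz ([] : List α) = 1 := rfl
@[simp] theorem sz_list_cons (a : α) (l : List α) : sz (a :: l) = sz a + sz l + 1 := by simp [sz]
theorem sz_pos (a : α) : 0 < sz a := T.size_pos _
theorem sz_bool_le (b : Bool) : sz b ≤ 3 := by cases b <;> simp

theorem length_lt_sz (l : List α) : l.length < sz l := by
  induction l with
  | nil => simp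
  | cons a l ih => simp; omega

theorem sz_append (l l' : List α) : sz (l ++ l') + 1 = sz l + sz l' := by
  induction l with
  | nil => simp; omega
  | cons a l ih => simp; omega

theorem sz_le_of_mem {a : α} {l : List α} (h : a ∈ l) : sz a < sz l := by
  induction l with
  | nil => simp at h
  | cons b l ih =>
    rcases List.mem_cons.1 h with h | h
    · subst h
      simp
    · have := ih h
      simp; omega

theorem sz_reverse (l : List α) : sz l.reverse = sz l := by
  induction l with
  | nil => simp
  | cons a l ih =>
    have := sz_append l.reverse [a]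
    simp at this ⊢
    omega

theorem sz_le_length_mul (l : List α) (B : ℕ) (h : ∀ a ∈ l, sz a ≤ B) :
    sz l ≤ l.length * (B + 1) + 1 := by
  induction l with
  | nil => simp
  | cons a l ih =>
    have h1 := ih (fun a ha => h a (List.mem_cons_of_mem _ ha))
    have h2 := h a (by simp)
    simp
    nlinarith

end Simp

/-- Polynomial-time computable functions between encodable types. -/
def Poly {α β : Type} [TEnc α] [TEnc β] (f : α → β) : Prop :=
  PC (bits : α → List Bool) (bits : β → List Bool) f

/-! ### A version of the conditional with branches defined on subtypes -/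

theorem PC.restrict {α β : Type} {ea : α → List Bool} {eb : β → List Bool} {f : α → β}
    (hf : PC ea eb f) (p : α → Prop) : PC (fun a : {a // p a} => ea a.1) eb (fun a => f a.1) := by
  obtain ⟨c, q, h⟩ := hf
  exact ⟨c, q, fun a => h a.1⟩

theorem PC.dite {α β : Type} {ea : α → List Bool} {eb : β → List Bool} {f : α → T}
    {g : {a // f a = T.nil} → β} {h : {a // f a ≠ T.nil} → β} (hf : PC ea T.enc f)
    (hg : PC (fun a : {a // f a = T.nil} => ea a.1) eb g)
    (hh : PC (fun a : {a // f a ≠ T.nil} => ea a.1) eb h) :
    PC ea eb (fun a => if H : f a = T.nil then g ⟨a, H⟩ else h ⟨a, H⟩) := by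
  obtain ⟨q, hq⟩ := hf.length_le
  obtain ⟨c, p, hf⟩ := hf
  obtain ⟨d, r, hg⟩ := hg
  obtain ⟨e, r', hh⟩ := hh
  refine ⟨Cmd.seq (Cmd.seq (mv 0 2) (cp 2 0 1)) (Cmd.seq (od c)
    (Cmd.cases 1 Cmd.skip (Cmd.seq (clr 1) (ev d)) (Cmd.seq (clr 1) (ev e)))),
    Polynomial.C 9 * Polynomial.X + p + r + r' + Polynomial.C 2 * q + Polynomial.C 10,
    fun a => ?_⟩
  rw [inp_eq_st, inp_eq_st]
  have h1 := dup_runs (ea a)
  have h2 := od_runs (hf a) (ea a)
  have h3 := clr_runs (i := 1) (f a).enc (st (ea a) (f a).enc []) (st (ea a) [] []) (by simp)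
    (by simp)
  have := hq a
  by_cases hn : f a = T.nil
  · have h4 := ev_runs (hg ⟨a, hn⟩) []
    have h5 := Runs.casesFalse (k := 1) (l := []) (c₀ := Cmd.skip)
      (ct := Cmd.seq (clr 1) (ev e)) (by simp [hn, T.enc]) (h3.seq h4)
    refine (h1.seq (h2.seq h5)).conv rfl (by simp [hn]) ?_
    simp only [Polynomial.eval_add, Polynomial.eval_mul, Polynomial.eval_C, Polynomial.eval_X]
    omega
  · have h4 := ev_runs (hh ⟨a, hn⟩) []
    obtain ⟨x, y, hxy⟩ : ∃ x y, f a = T.node x y := by
      cases hfa : f a with
      | nil => exact absurd hfa hn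
      | node x y => exact ⟨x, y, rfl⟩
    have h5 := Runs.casesTrue (k := 1) (l := x.enc ++ y.enc) (c₀ := Cmd.skip)
      (cf := Cmd.seq (clr 1) (ev d)) (by simp [hxy, T.enc]) (h3.seq h4)
    refine (h1.seq (h2.seq h5)).conv rfl (by simp [hn]) ?_
    simp only [Polynomial.eval_add, Polynomial.eval_mul, Polynomial.eval_C, Polynomial.eval_X]
    omega

namespace Poly

variable {α β γ δ σ : Type} [TEnc α] [TEnc β] [TEnc γ] [TEnc δ] [TEnc σ]

theorem congr {f g : α → β} (hf : Poly f) (h : ∀ a, f a = g a) : Poly g := PC.congr hf h

/-- A typed function is polynomial-time computable iff it is so as a tree-valued function. -/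
theorem of_toT {f : α → β} (h : Poly (fun a => toT (f a))) : Poly f := h

theorem toT' {f : α → β} (h : Poly f) : Poly (fun a => toT (f a)) := h

theorem id : Poly (fun a : α => a) := PC.id

theorem const (b : β) : Poly (fun _ : α => b) := PC.const b

theorem comp {g : β → γ} {f : α → β} (hg : Poly g) (hf : Poly f) : Poly (fun a => g (f a)) :=
  PC.comp hg hf

theorem node {f g : α → T} (hf : Poly f) (hg : Poly g) : Poly (fun a => T.node (f a) (g a)) :=
  PC.node hf hg

theorem pair {f : α → β} {g : α → γ} (hf : Poly f) (hg : Poly g) : Poly (fun a => (f a, g a)) :=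
  PC.node hf hg

theorem hd {f : α → T} (hf : Poly f) : Poly (fun a => (f a).hd) := PC.comp PT.hd hf

theorem tl {f : α → T} (hf : Poly f) : Poly (fun a => (f a).tl) := PC.comp PT.tl hf

theorem fst {f : α → β × γ} (hf : Poly f) : Poly (fun a => (f a).1) :=
  of_toT ((hd hf.toT').congr fun _ => rfl)

theorem snd {f : α → β × γ} (hf : Poly f) : Poly (fun a => (f a).2) :=
  of_toT ((tl hf.toT').congr fun _ => rfl)

theorem sz_le {f : α → β} (hf : Poly f) : ∃ p : Polynomial ℕ, ∀ a, sz (f a) ≤ p.eval (sz a) :=
  PC.length_le hf

/-! #### Booleans and conditionals -/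

theorem cond {b : α → Bool} {f g : α → β} (hb : Poly b) (hf : Poly f) (hg : Poly g) :
    Poly (fun a => bif b a then f a else g a) := by
  refine PC.congr (PC.ite (f := fun a => toT (b a)) hb hg hf) fun a => ?_
  cases h : b a <;> simp

theorem ite {p : α → Prop} [DecidablePred p] {f g : α → β} (hp : Poly (fun a => decide (p a)))
    (hf : Poly f) (hg : Poly g) : Poly (fun a => if p a then f a else g a) :=
  (cond hp hf hg).congr fun a => by by_cases h : p a <;> simp [h]

theorem not {b : α → Bool} (hb : Poly b) : Poly (fun a => !(b a)) :=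
  (cond hb (const false) (const true)).congr fun a => by cases b a <;> rfl

theorem and {b c : α → Bool} (hb : Poly b) (hc : Poly c) : Poly (fun a => b a && c a) :=
  (cond hb hc (const false)).congr fun a => by cases b a <;> rfl

theorem or {b c : α → Bool} (hb : Poly b) (hc : Poly c) : Poly (fun a => b a || c a) :=
  (cond hb (const true) hc).congr fun a => by cases b a <;> rfl

theorem xor {b c : α → Bool} (hb : Poly b) (hc : Poly c) : Poly (fun a => (b a ^^ c a)) :=
  (cond hb (not hc) hc).congr fun a => by cases b a <;> simp

theorem decide_and {p q : α → Prop} [DecidablePred p] [DecidablePred q]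
    (hp : Poly (fun a => decide (p a))) (hq : Poly (fun a => decide (q a))) :
    Poly (fun a => decide (p a ∧ q a)) :=
  (and hp hq).congr fun a => by simp

theorem decide_or {p q : α → Prop} [DecidablePred p] [DecidablePred q]
    (hp : Poly (fun a => decide (p a))) (hq : Poly (fun a => decide (q a))) :
    Poly (fun a => decide (p a ∨ q a)) :=
  (or hp hq).congr fun a => by simp

theorem decide_not {p : α → Prop} [DecidablePred p]
    (hp : Poly (fun a => decide (p a))) : Poly (fun a => decide (¬ p a)) :=
  (not hp).congr fun a => by simp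

/-- Equality tests. -/
theorem decide_eq [DecidableEq β] {f g : α → β} (hf : Poly f) (hg : Poly g) :
    Poly (fun a => decide (f a = g a)) := by
  refine PC.congr (PC.beq hf hg) fun a => ?_
  simp only [TEnc.inj.eq_iff]

theorem decide_bool {b : α → Bool} (hb : Poly b) : Poly (fun a => decide (b a = true)) :=
  hb.congr fun a => by simp

/-! #### Options -/

theorem some {f : α → β} (hf : Poly f) : Poly (fun a => Option.some (f a)) :=
  node hf.toT' (const T.nil)

/-- Case distinction on an option. -/
theorem optCases {o : α → Option β} {g : α → γ} {h : α → β → γ} (ho : Poly o) (hg : Poly g)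
    (hh : Poly (fun p : α × β => h p.1 p.2)) :
    Poly (fun a => match o a with | none => g a | Option.some b => h a b) := by
  have key : ∀ a : {a : α // toT (o a) ≠ T.nil}, ∃ b, o a.1 = Option.some b := by
    rintro ⟨a, ha⟩
    cases hoa : o a with
    | none => exact absurd (by rw [hoa]; rfl) ha
    | some b => exact ⟨b, rfl⟩
  choose B hB using key
  have h1 : PC (fun a : {a : α // toT (o a) ≠ T.nil} => bits a.1) (bits : α × β → List Bool)
      (fun a => (a.1, B a)) := by
    have h2 : PC (fun a : {a : α // toT (o a) ≠ T.nil} => bits a.1) T.enc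
        (fun a => T.node (toT a.1) (toT (o a.1)).hd) :=
      PC.restrict (node (id (α := α)) (hd ho.toT')) _
    refine (h2.congr (g := fun a => toT (a.1, B a)) fun a => ?_)
    rw [hB a]
    rfl
  have h3 := PC.dite (f := fun a => toT (o a)) ho (PC.restrict hg _) (PC.comp hh h1)
  refine PC.congr h3 fun a => ?_
  by_cases H : toT (o a) = T.nil
  · rw [dif_pos H]
    cases hoa : o a with
    | none => rfl
    | some b => rw [hoa] at H; exact absurd H (by simp)
  · rw [dif_neg H]
    have := hB ⟨a, H⟩
    simp only at this ⊢
    rw [this]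

/-! #### Sums -/

theorem inl {f : α → β} (hf : Poly f) : Poly (fun a => (Sum.inl (f a) : β ⊕ γ)) :=
  node (const T.nil) hf.toT'

theorem inr {f : α → γ} (hf : Poly f) : Poly (fun a => (Sum.inr (f a) : β ⊕ γ)) :=
  node (const (T.node T.nil T.nil)) hf.toT'

/-- Case distinction on a sum. -/
theorem sumCases {o : α → β ⊕ γ} {g : α → β → δ} {h : α → γ → δ} (ho : Poly o)
    (hg : Poly (fun p : α × β => g p.1 p.2)) (hh : Poly (fun p : α × γ => h p.1 p.2)) :
    Poly (fun a => match o a with | Sum.inl b => g a b | Sum.inr c => h a c) := by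
  have key1 : ∀ a : {a : α // (toT (o a)).hd = T.nil}, ∃ b, o a.1 = Sum.inl b := by
    rintro ⟨a, ha⟩
    cases hoa : o a with
    | inl b => exact ⟨b, rfl⟩
    | inr c => rw [hoa] at ha; simp at ha
  have key2 : ∀ a : {a : α // (toT (o a)).hd ≠ T.nil}, ∃ b, o a.1 = Sum.inr b := by
    rintro ⟨a, ha⟩
    cases hoa : o a with
    | inl b => rw [hoa] at ha; simp at ha
    | inr c => exact ⟨c, rfl⟩
  choose B hB using key1
  choose C hC using key2
  have h1 : PC (fun a : {a : α // (toT (o a)).hd = T.nil} => bits a.1) (bits : α × β → List Bool)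
      (fun a => (a.1, B a)) := by
    have h2 : PC (fun a : {a : α // (toT (o a)).hd = T.nil} => bits a.1) T.enc
        (fun a => T.node (toT a.1) (toT (o a.1)).tl) :=
      PC.restrict (node (id (α := α)) (tl ho.toT')) _
    refine (h2.congr (g := fun a => toT (a.1, B a)) fun a => ?_)
    rw [hB a]
    rfl
  have h1' : PC (fun a : {a : α // (toT (o a)).hd ≠ T.nil} => bits a.1)
      (bits : α × γ → List Bool) (fun a => (a.1, C a)) := by
    have h2 : PC (fun a : {a : α // (toT (o a)).hd ≠ T.nil} => bits a.1) T.enc
        (fun a => T.node (toT a.1) (toT (o a.1)).tl) :=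
      PC.restrict (node (id (α := α)) (tl ho.toT')) _
    refine (h2.congr (g := fun a => toT (a.1, C a)) fun a => ?_)
    rw [hC a]
    rfl
  have h3 := PC.dite (f := fun a => (toT (o a)).hd) (hd ho.toT') (PC.comp hg h1) (PC.comp hh h1')
  refine PC.congr h3 fun a => ?_
  by_cases H : (toT (o a)).hd = T.nil
  · rw [dif_pos H]
    have := hB ⟨a, H⟩
    simp only at this ⊢
    rw [this]
  · rw [dif_neg H]
    have := hC ⟨a, H⟩
    simp only at this ⊢
    rw [this]

/-! #### Lists -/

theorem cons {f : α → β} {l : α → List β} (hf : Poly f) (hl : Poly l) :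
    Poly (fun a => f a :: l a) :=
  node hf.toT' hl.toT'

theorem tail {l : α → List β} (hl : Poly l) : Poly (fun a => (l a).tail) :=
  of_toT ((tl hl.toT').congr fun a => by cases l a <;> rfl)

theorem head? {l : α → List β} (hl : Poly l) : Poly (fun a => (l a).head?) := by
  refine of_toT (PC.congr (PC.ite (f := fun a => toT (l a)) hl (const (α := α) T.nil)
    (node (hd hl.toT') (const T.nil))) fun a => ?_)
  cases l a <;> simp

theorem isEmpty {l : α → List β} (hl : Poly l) : Poly (fun a => (l a).isEmpty) := by
  refine of_toT (PC.congr (PC.ite (f := fun a => toT (l a)) hl (const (α := α) (toT true))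
    (const (toT false))) fun a => ?_)
  cases l a <;> simp

/-- Case distinction on a list. -/
theorem listCases {l : α → List β} {g : α → γ} {h : α → β → List β → γ} (hl : Poly l)
    (hg : Poly g) (hh : Poly (fun p : α × β × List β => h p.1 p.2.1 p.2.2)) :
    Poly (fun a => match l a with | [] => g a | b :: t => h a b t) := by
  have h1 : Poly (fun p : α × β => h p.1 p.2 (l p.1).tail) :=
    hh.comp (pair (fst id) (pair (snd id) (tail (hl.comp (fst id)))))
  refine (optCases (h := fun a b => h a b (l a).tail) (head? hl) hg h1).congr fun a => ?_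
  cases l a <;> simp

/-- The state transition used for folding. -/
def foldStep (F : α → σ → β → σ) : α × List β × σ → α × List β × σ
  | (a, [], s) => (a, [], s)
  | (a, b :: l, s) => (a, l, F a s b)

omit [TEnc α] [TEnc β] [TEnc σ] in
theorem foldStep_iterate (F : α → σ → β → σ) (a : α) : ∀ (k : ℕ) (l : List β) (s : σ),
    (foldStep F)^[k] (a, l, s) = (a, l.drop k, (l.take k).foldl (F a) s)
  | 0, l, s => by simp
  | k + 1, [], s => by
    rw [Function.iterate_succ_apply]
    change (foldStep F)^[k] (a, [], s) = _
    rw [foldStep_iterate F a k]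
    simp
  | k + 1, b :: l, s => by
    rw [Function.iterate_succ_apply]
    change (foldStep F)^[k] (a, l, F a s b) = _
    rw [foldStep_iterate F a k]
    simp

theorem sz_drop_le (l : List β) (k : ℕ) : sz (l.drop k) ≤ sz l := by
  induction l generalizing k with
  | nil => simp
  | cons b l ih =>
    cases k with
    | zero => simp
    | succ k => have := ih k; simp; omega

/-- Left folds with polynomially bounded intermediate results. -/
theorem foldl {l : α → List β} {s : α → σ} {F : α → σ → β → σ} (hl : Poly l) (hs : Poly s)
    (hF : Poly (fun p : α × σ × β => F p.1 p.2.1 p.2.2)) (q : Polynomial ℕ)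
    (hq : ∀ a, ∀ k ≤ (l a).length, sz (((l a).take k).foldl (F a) (s a)) ≤ q.eval (sz a)) :
    Poly (fun a => (l a).foldl (F a) (s a)) := by
  have hstep : Poly (foldStep F) := by
    have h1 : Poly (fun p : (α × List β × σ) × β × List β =>
        ((p.1.1, p.2.2, F p.1.1 p.1.2.2 p.2.1) : α × List β × σ)) := by
      refine pair (fst (fst id)) (pair (snd (snd id)) ?_)
      exact hF.comp (pair (fst (fst id)) (pair (snd (snd (fst id))) (fst (snd id))))
    refine (listCases (l := fun x : α × List β × σ => x.2.1)
      (g := fun x => x) (h := fun x b t => (x.1, t, F x.1 x.2.2 b)) (fst (snd id)) id h1).congr ?_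
    rintro ⟨a, l, s⟩
    cases l <;> rfl
  obtain ⟨r, hr⟩ := hl.sz_le
  have h2 := PC.iterate (α := α) (ea := bits) (β := α × List β × σ) (tb := toT)
    (n := fun a => toT (l a)) (x := fun a => (a, l a, s a)) (f := foldStep F)
    hl (pair id (pair hl hs)) hstep (Polynomial.X + r + q + Polynomial.C 2) (by
      intro a k _
      rw [foldStep_iterate]
      change sz (a, (l a).drop k, ((l a).take k).foldl (F a) (s a)) ≤ _
      have e1 := sz_drop_le (l a) k
      have e2 := hr a
      have e3 : sz (((l a).take k).foldl (F a) (s a)) ≤ q.eval (sz a) := by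
        by_cases hk : k ≤ (l a).length
        · exact hq a k hk
        · have := hq a _ le_rfl
          rw [List.take_of_length_le (by omega)]
          rwa [List.take_length] at this
      simp only [sz_pair, Polynomial.eval_add, Polynomial.eval_X, Polynomial.eval_C]
      change _ ≤ sz a + r.eval (sz a) + q.eval (sz a) + 2
      omega)
  have h3 : Poly (fun a => (foldStep F)^[(toT (l a)).size] (a, l a, s a)) := h2
  refine (snd (snd h3)).congr fun a => ?_
  rw [foldStep_iterate]
  have : (l a).length < (toT (l a)).size := length_lt_sz (l a)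
  rw [List.take_of_length_le (by omega)]

theorem sz_take_le (l : List β) (k : ℕ) : sz (l.take k) ≤ sz l := by
  induction l generalizing k with
  | nil => simp
  | cons b l ih =>
    cases k with
    | zero => simp
    | succ k => have := ih k; simp; omega

theorem reverse {l : α → List β} (hl : Poly l) : Poly (fun a => (l a).reverse) := by
  obtain ⟨r, hr⟩ := hl.sz_le
  have key : ∀ (l s : List β), l.foldl (fun s b => b :: s) s = l.reverse ++ s := by
    intro l
    induction l with
    | nil => intro s; rfl
    | cons a l ih => intro s; simp [ih]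
  refine (foldl (s := fun _ => ([] : List β)) (F := fun _ s b => b :: s) hl (const _)
    (cons (snd (snd id)) (fst (snd id))) r ?_).congr fun a => ?_
  · intro a k _
    rw [key, List.append_nil, sz_reverse]
    exact (sz_take_le _ _).trans (hr a)
  · rw [key, List.append_nil]

theorem append {l l' : α → List β} (hl : Poly l) (hl' : Poly l') :
    Poly (fun a => l a ++ l' a) := by
  obtain ⟨r, hr⟩ := hl.sz_le
  obtain ⟨r', hr'⟩ := hl'.sz_le
  have key : ∀ (l s : List β), l.foldl (fun s b => b :: s) s = l.reverse ++ s := by
    intro l
    induction l with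
    | nil => intro s; rfl
    | cons a l ih => intro s; simp [ih]
  refine (foldl (l := fun a => (l a).reverse) (s := l') (F := fun _ s b => b :: s) (reverse hl) hl'
    (cons (snd (snd id)) (fst (snd id))) (r + r') ?_).congr fun a => ?_
  · intro a k _
    rw [key]
    have h1 := sz_append ((l a).reverse.take k).reverse (l' a)
    have h2 := sz_reverse ((l a).reverse.take k)
    have h3 := sz_take_le (l a).reverse k
    have h4 := sz_reverse (l a)
    have h5 := hr a
    have h6 := hr' a
    simp only [Polynomial.eval_add]
    omega
  · rw [key, List.reverse_reverse]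

theorem map {l : α → List β} {F : α → β → γ} (hl : Poly l)
    (hF : Poly (fun p : α × β => F p.1 p.2)) : Poly (fun a => (l a).map (F a)) := by
  obtain ⟨r, hr⟩ := hl.sz_le
  obtain ⟨q, hq⟩ := hF.sz_le
  have key : ∀ (a : α) (l : List β) (s : List γ),
      l.foldl (fun s b => F a b :: s) s = (l.map (F a)).reverse ++ s := by
    intro a l
    induction l with
    | nil => intro s; rfl
    | cons b l ih => intro s; simp [ih]
  refine (reverse (foldl (s := fun _ => ([] : List γ)) (F := fun a s b => F a b :: s) hl (const _)
    (cons (hF.comp (pair (fst id) (snd (snd id)))) (fst (snd id)))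
    (r * (q.comp (Polynomial.X + r + Polynomial.C 1) + Polynomial.C 1) + Polynomial.C 1)
      ?_)).congr fun a => ?_
  · intro a k hk
    rw [key, List.append_nil, sz_reverse]
    have h1 := sz_le_length_mul (((l a).take k).map (F a)) (q.eval (sz a + r.eval (sz a) + 1)) (by
      intro c hc
      rw [List.mem_map] at hc
      obtain ⟨b, hb, rfl⟩ := hc
      refine (hq (a, b)).trans (eval_mono q ?_)
      have h2 := sz_le_of_mem (List.mem_of_mem_take hb)
      have h3 := hr a
      simp only [sz_pair]
      omega)
    refine h1.trans ?_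
    have h2 : (((l a).take k).map (F a)).length ≤ r.eval (sz a) := by
      have := length_lt_sz (l a)
      have := hr a
      simp
      omega
    simp only [Polynomial.eval_add, Polynomial.eval_mul, Polynomial.eval_comp, Polynomial.eval_X,
      Polynomial.eval_C]
    exact Nat.add_le_add_right (Nat.mul_le_mul_right _ h2) 1
  · rw [key, List.append_nil, List.reverse_reverse]

theorem flatten {l : α → List (List β)} (hl : Poly l) : Poly (fun a => (l a).flatten) := by
  obtain ⟨r, hr⟩ := hl.sz_le
  have key : ∀ (l : List (List β)) (s : List β),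
      l.foldl (fun s b => s ++ b) s = s ++ l.flatten := by
    intro l
    induction l with
    | nil => intro s; simp
    | cons b l ih => intro s; simp [ih]
  have key2 : ∀ l : List (List β), sz l.flatten ≤ sz l := by
    intro l
    induction l with
    | nil => simp
    | cons b l ih =>
      have := sz_append b l.flatten
      simp
      omega
  refine (foldl (s := fun _ => ([] : List β)) (F := fun _ s b => s ++ b) hl (const _)
    (append (fst (snd id)) (snd (snd id))) r ?_).congr fun a => ?_
  · intro a k _
    rw [key, List.nil_append]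
    exact (key2 _).trans ((sz_take_le _ _).trans (hr a))
  · rw [key, List.nil_append]

theorem flatMap {l : α → List β} {F : α → β → List γ} (hl : Poly l)
    (hF : Poly (fun p : α × β => F p.1 p.2)) : Poly (fun a => (l a).flatMap (F a)) :=
  (flatten (map hl hF)).congr fun a => by rw [List.flatMap_def]

theorem filter {l : α → List β} {p : α → β → Bool} (hl : Poly l)
    (hp : Poly (fun x : α × β => p x.1 x.2)) : Poly (fun a => (l a).filter (p a)) := by
  refine (flatMap (F := fun a b => bif p a b then [b] else []) hl
    (cond hp (cons (snd id) (const [])) (const []))).congr fun a => ?_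
  induction l a with
  | nil => rfl
  | cons b l ih => cases h : p a b <;> simp [h, ih]

theorem any {l : α → List β} {p : α → β → Bool} (hl : Poly l)
    (hp : Poly (fun x : α × β => p x.1 x.2)) : Poly (fun a => (l a).any (p a)) := by
  refine (not (isEmpty (filter hl hp))).congr fun a => ?_
  induction l a with
  | nil => rfl
  | cons b l ih => cases h : p a b <;> simp_all

theorem all {l : α → List β} {p : α → β → Bool} (hl : Poly l)
    (hp : Poly (fun x : α × β => p x.1 x.2)) : Poly (fun a => (l a).all (p a)) := by
  refine (not (any (p := fun a b => !(p a b)) hl (not hp))).congr fun a => ?_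
  induction l a with
  | nil => rfl
  | cons b l ih => cases h : p a b <;> simp_all

theorem decide_mem [DecidableEq β] {f : α → β} {l : α → List β} (hf : Poly f) (hl : Poly l) :
    Poly (fun a => decide (f a ∈ l a)) := by
  refine (any (p := fun a b => decide (f a = b)) hl
    (decide_eq (hf.comp (fst id)) (snd id))).congr fun a => ?_
  by_cases h : f a ∈ l a
  · simp only [h, decide_true, List.any_eq_true]
    exact ⟨f a, h, by simp⟩
  · simp only [h, decide_false]
    rw [List.any_eq_false]
    intro b hb
    simp
    rintro rfl
    exact h hb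

end Poly

end Pool.Agent.NPC
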