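import Pool.Agent.KS6_49.L8.NPC.Cmd

/-!
# Programs over stacks indexed by `ℕ`, renaming, and the notion `PC` of polynomial-time
computability by programs between encoded types.
-/

namespace Pool.Agent.NPC

open Function (update)
open Turing

namespace Cmd

/-- Renaming of stacks. -/
def map {K K' : Type} (f : K → K') : Cmd K → Cmd K'
  | skip => skip
  | push k b => push (f k) b
  | pop k => pop (f k)
  | seq c d => seq (c.map f) (d.map f)
  | cases k c₀ cf ct => cases (f k) (c₀.map f) (cf.map f) (ct.map f)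
  | loop k c => loop (f k) (c.map f)

/-- A strict bound on the stacks used. -/
def bd : Cmd ℕ → ℕ
  | skip => 0
  | push k _ => k + 1
  | pop k => k + 1
  | seq c d => max c.bd d.bd
  | cases k c₀ cf ct => max (k + 1) (max c₀.bd (max cf.bd ct.bd))
  | loop k c => max (k + 1) c.bd

end Cmd

theorem update_comp_inj {K K' : Type} [DecidableEq K] [DecidableEq K'] {f : K → K'}
    (hf : Function.Injective f) (S : K' → List Bool) (k : K) (v : List Bool) (i : K) :
    update S (f k) v (f i) = update (fun i => S (f i)) k v i := by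
  by_cases h : i = k
  · subst h; simp
  · rw [Function.update_of_ne h, Function.update_of_ne (fun h' => h (hf h'))]

theorem Run.map {K K' : Type} [DecidableEq K] [DecidableEq K'] {f : K → K'}
    (hf : Function.Injective f) {c : Cmd K} {s s' : K → List Bool} {t : ℕ} (h : Run c s s' t) :
    ∀ S : K' → List Bool, (fun i => S (f i)) = s →
      ∃ S' : K' → List Bool, Run (c.map f) S S' t ∧ (fun i => S' (f i)) = s' ∧
        ∀ j, j ∉ Set.range f → S' j = S j := by
  induction h with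
  | skip s => exact fun S hS => ⟨S, Run.skip S, hS, fun _ _ => rfl⟩
  | push s k b =>
    intro S hS
    refine ⟨_, Run.push S (f k) b, ?_, ?_⟩
    · funext i
      rw [update_comp_inj hf, hS]
      rw [← hS]
    · intro j hj
      rw [Function.update_of_ne]
      rintro rfl
      exact hj ⟨k, rfl⟩
  | pop s k =>
    intro S hS
    refine ⟨_, Run.pop S (f k), ?_, ?_⟩
    · funext i
      rw [update_comp_inj hf, hS]
      rw [← hS]
    · intro j hj
      rw [Function.update_of_ne]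
      rintro rfl
      exact hj ⟨k, rfl⟩
  | @seq c d s s' s'' t t' _ _ ih₁ ih₂ =>
    intro S hS
    obtain ⟨S₁, h₁, e₁, g₁⟩ := ih₁ S hS
    obtain ⟨S₂, h₂, e₂, g₂⟩ := ih₂ S₁ e₁
    exact ⟨S₂, Run.seq h₁ h₂, e₂, fun j hj => (g₂ j hj).trans (g₁ j hj)⟩
  | @casesNil k c₀ cf ct s s' t hk _ ih =>
    intro S hS
    obtain ⟨S₁, h₁, e₁, g₁⟩ := ih S hS
    refine ⟨S₁, Run.casesNil ?_ h₁, e₁, g₁⟩
    rw [← hk, ← hS]
  | @casesFalse k c₀ cf ct s s' t l hk _ ih =>
    intro S hS
    obtain ⟨S₁, h₁, e₁, g₁⟩ := ih S hS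
    refine ⟨S₁, Run.casesFalse (l := l) ?_ h₁, e₁, g₁⟩
    rw [← hk, ← hS]
  | @casesTrue k c₀ cf ct s s' t l hk _ ih =>
    intro S hS
    obtain ⟨S₁, h₁, e₁, g₁⟩ := ih S hS
    refine ⟨S₁, Run.casesTrue (l := l) ?_ h₁, e₁, g₁⟩
    rw [← hk, ← hS]
  | @loopNil k c s hk =>
    intro S hS
    refine ⟨S, Run.loopNil ?_, hS, fun _ _ => rfl⟩
    rw [← hk, ← hS]
  | @loopCons k c s s' s'' t t' hk _ _ ih₁ ih₂ =>
    intro S hS
    obtain ⟨S₁, h₁, e₁, g₁⟩ := ih₁ S hS
    obtain ⟨S₂, h₂, e₂, g₂⟩ := ih₂ S₁ e₁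
    refine ⟨S₂, Run.loopCons ?_ h₁ h₂, e₂, fun j hj => (g₂ j hj).trans (g₁ j hj)⟩
    intro h
    apply hk
    rw [← hS, ← h]

theorem update_restrict {n : ℕ} {k : ℕ} (hk : k < n + 1) (S : ℕ → List Bool) (v : List Bool) :
    (fun i : Fin (n + 1) => update S k v i) =
      update (fun i : Fin (n + 1) => S i) (Fin.ofNat (n + 1) k) v := by
  funext i
  by_cases h : (i : ℕ) = k
  · have : i = Fin.ofNat (n + 1) k := by
      apply Fin.ext
      simp [h, Nat.mod_eq_of_lt hk]
    rw [← this, Function.update_self, h, Function.update_self]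
  · rw [Function.update_of_ne h, Function.update_of_ne]
    intro h'
    apply h
    rw [h']
    simp [Nat.mod_eq_of_lt hk]

theorem Run.restrict {c : Cmd ℕ} {s s' : ℕ → List Bool} {t : ℕ} (h : Run c s s' t) {n : ℕ}
    (hn : c.bd ≤ n + 1) :
    Run (c.map (Fin.ofNat (n + 1))) (fun i : Fin (n + 1) => s i) (fun i => s' i) t := by
  induction h with
  | skip s => exact Run.skip _
  | push s k b =>
    have hk : k < n + 1 := hn
    have := Run.push (fun i : Fin (n + 1) => s i) (Fin.ofNat (n + 1) k) b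
    rw [update_restrict hk]
    simpa [Cmd.map, Nat.mod_eq_of_lt hk] using this
  | pop s k =>
    have hk : k < n + 1 := hn
    have := Run.pop (fun i : Fin (n + 1) => s i) (Fin.ofNat (n + 1) k)
    rw [update_restrict hk]
    simpa [Cmd.map, Nat.mod_eq_of_lt hk] using this
  | seq _ _ ih₁ ih₂ =>
    simp only [Cmd.bd, sup_le_iff] at hn
    exact Run.seq (ih₁ hn.1) (ih₂ hn.2)
  | @casesNil k c₀ cf ct s s' t hk _ ih =>
    simp only [Cmd.bd, sup_le_iff] at hn
    refine Run.casesNil ?_ (ih hn.2.1)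
    simpa [Nat.mod_eq_of_lt hn.1] using hk
  | @casesFalse k c₀ cf ct s s' t l hk _ ih =>
    simp only [Cmd.bd, sup_le_iff] at hn
    refine Run.casesFalse (l := l) ?_ (ih hn.2.2.1)
    simpa [Nat.mod_eq_of_lt hn.1] using hk
  | @casesTrue k c₀ cf ct s s' t l hk _ ih =>
    simp only [Cmd.bd, sup_le_iff] at hn
    refine Run.casesTrue (l := l) ?_ (ih hn.2.2.2)
    simpa [Nat.mod_eq_of_lt hn.1] using hk
  | @loopNil k c s hk =>
    simp only [Cmd.bd, sup_le_iff] at hn
    refine Run.loopNil ?_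
    simpa [Nat.mod_eq_of_lt hn.1] using hk
  | @loopCons k c s s' s'' t t' hk _ _ ih₁ ih₂ =>
    have hn' := hn
    simp only [Cmd.bd, sup_le_iff] at hn
    refine Run.loopCons ?_ (ih₁ hn.2) (ih₂ hn')
    simpa [Nat.mod_eq_of_lt hn.1] using hk

/-- A run of length `t` lengthens each stack by at most `t`. -/
theorem Run.length_le {K : Type} [DecidableEq K] {c : Cmd K} {s s' : K → List Bool} {t : ℕ}
    (h : Run c s s' t) (i : K) : (s' i).length ≤ (s i).length + t := by
  induction h with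
  | skip s => omega
  | push s k b =>
    by_cases h : i = k
    · subst h; simp
    · simp [Function.update_of_ne h]
  | pop s k =>
    by_cases h : i = k
    · subst h; simp; omega
    · simp [Function.update_of_ne h]
  | seq _ _ ih₁ ih₂ => omega
  | casesNil _ _ ih => omega
  | casesFalse _ _ ih => omega
  | casesTrue _ _ ih => omega
  | loopNil => omega
  | loopCons _ _ _ ih₁ ih₂ => omega

/-- A run within a time bound. -/
def Runs (c : Cmd ℕ) (s s' : ℕ → List Bool) (n : ℕ) : Prop := ∃ t ≤ n, Run c s s' t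

theorem Runs.mono {c : Cmd ℕ} {s s' : ℕ → List Bool} {m n : ℕ} (h : Runs c s s' m) (hmn : m ≤ n) :
    Runs c s s' n := by
  obtain ⟨t, ht, h⟩ := h
  exact ⟨t, ht.trans hmn, h⟩

theorem Runs.conv {c : Cmd ℕ} {s s' s₁ s₁' : ℕ → List Bool} {m n : ℕ} (h : Runs c s s' m)
    (e₁ : s = s₁) (e₂ : s' = s₁') (hmn : m ≤ n) : Runs c s₁ s₁' n := by
  subst e₁ e₂
  exact h.mono hmn

theorem Runs.seq {c d : Cmd ℕ} {s s' s'' : ℕ → List Bool} {m n : ℕ} (h₁ : Runs c s s' m)
    (h₂ : Runs d s' s'' n) : Runs (Cmd.seq c d) s s'' (m + n) := by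
  obtain ⟨t₁, ht₁, h₁⟩ := h₁
  obtain ⟨t₂, ht₂, h₂⟩ := h₂
  exact ⟨t₁ + t₂, by omega, Run.seq h₁ h₂⟩

theorem Runs.skip (s : ℕ → List Bool) : Runs Cmd.skip s s 1 := ⟨1, le_rfl, Run.skip s⟩

theorem Runs.push (s : ℕ → List Bool) (k : ℕ) (b : Bool) :
    Runs (Cmd.push k b) s (update s k (b :: s k)) 1 := ⟨1, le_rfl, Run.push s k b⟩

theorem Runs.pop (s : ℕ → List Bool) (k : ℕ) :
    Runs (Cmd.pop k) s (update s k (s k).tail) 1 := ⟨1, le_rfl, Run.pop s k⟩

theorem Runs.casesNil {k : ℕ} {c₀ cf ct : Cmd ℕ} {s s' : ℕ → List Bool} {n : ℕ} (hk : s k = [])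
    (h : Runs c₀ s s' n) : Runs (Cmd.cases k c₀ cf ct) s s' (n + 1) := by
  obtain ⟨t, ht, h⟩ := h
  exact ⟨t + 1, by omega, Run.casesNil hk h⟩

theorem Runs.casesFalse {k : ℕ} {c₀ cf ct : Cmd ℕ} {s s' : ℕ → List Bool} {n : ℕ} {l : List Bool}
    (hk : s k = false :: l)
    (h : Runs cf s s' n) : Runs (Cmd.cases k c₀ cf ct) s s' (n + 1) := by
  obtain ⟨t, ht, h⟩ := h
  exact ⟨t + 1, by omega, Run.casesFalse hk h⟩

theorem Runs.casesTrue {k : ℕ} {c₀ cf ct : Cmd ℕ} {s s' : ℕ → List Bool} {n : ℕ} {l : List Bool}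
    (hk : s k = true :: l)
    (h : Runs ct s s' n) : Runs (Cmd.cases k c₀ cf ct) s s' (n + 1) := by
  obtain ⟨t, ht, h⟩ := h
  exact ⟨t + 1, by omega, Run.casesTrue hk h⟩

theorem Runs.loopNil {k : ℕ} {c : Cmd ℕ} {s : ℕ → List Bool} (hk : s k = []) :
    Runs (Cmd.loop k c) s s 1 := ⟨1, le_rfl, Run.loopNil hk⟩

theorem Runs.loopCons {k : ℕ} {c : Cmd ℕ} {s s' s'' : ℕ → List Bool} {m n : ℕ} (hk : s k ≠ [])
    (h₁ : Runs c s s' m) (h₂ : Runs (Cmd.loop k c) s' s'' n) :
    Runs (Cmd.loop k c) s s'' (m + n + 1) := by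
  obtain ⟨t₁, ht₁, h₁⟩ := h₁
  obtain ⟨t₂, ht₂, h₂⟩ := h₂
  exact ⟨t₁ + t₂ + 1, by omega, Run.loopCons hk h₁ h₂⟩

/-- Evaluation of natural polynomials is monotone. -/
theorem eval_mono (p : Polynomial ℕ) {m n : ℕ} (h : m ≤ n) : p.eval m ≤ p.eval n := by
  rw [Polynomial.eval_eq_sum, Polynomial.eval_eq_sum]
  unfold Polynomial.sum
  exact Finset.sum_le_sum fun i _ => Nat.mul_le_mul_left _ (Nat.pow_le_pow_left h i)

/-- Polynomial-time computability by a program, between encoded types. -/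
def PC {α β : Type} (ea : α → List Bool) (eb : β → List Bool) (f : α → β) : Prop :=
  ∃ (c : Cmd ℕ) (p : Polynomial ℕ), ∀ a, Runs c (inp (ea a)) (inp (eb (f a)))
    (p.eval (ea a).length)

/-- Transport of a timed computation along equalities. -/
def outputs_conv {tm : FinTM2} {x x' : List (tm.Γ tm.k₀)} {y y' : List (tm.Γ tm.k₁)} {t t' : ℕ}
    (hx : x = x') (hy : y = y') (ht : t ≤ t') (h : TM2OutputsInTime tm x (some y) t) :
    TM2OutputsInTime tm x' (some y') t' :=
  ⟨⟨h.steps, by subst hx hy; exact h.evals_in_steps⟩, h.steps_le_m.trans ht⟩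

theorem PC.toPolyTime {f : List Bool → List Bool}
    (h : PC (id : List Bool → List Bool) (id : List Bool → List Bool) f) : PolyTime f := by
  obtain ⟨c, p, h⟩ := h
  have key : ∀ x : List Bool, ∃ t, t ≤ p.eval x.length + 1 ∧
      Nonempty (TM2OutputsInTime (c.map (Fin.ofNat (c.bd + 1))).toTM x (some (f x)) t) := by
    intro x
    obtain ⟨t, ht, hr⟩ := h x
    have h1 := hr.restrict (n := c.bd) (by omega)
    refine ⟨t + 1, by simpa using ht, toTM_outputs ?_⟩
    convert! h1 using 1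
    · funext i
      by_cases hi : i = 0
      · subst hi; simp [inp]
      · have : (i : ℕ) ≠ 0 := fun h => hi (Fin.ext h)
        simp [inp, hi, this]
    · funext i
      by_cases hi : i = 0
      · subst hi; simp [inp]
      · have : (i : ℕ) ≠ 0 := fun h => hi (Fin.ext h)
        simp [inp, hi, this]
  refine ⟨{ tm := (c.map (Fin.ofNat (c.bd + 1))).toTM
            inputAlphabet := Equiv.refl Bool
            outputAlphabet := Equiv.refl Bool
            time := p + 1
            outputsFun := ?_ }⟩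
  intro x
  have hx := key x
  have ht := hx.choose_spec.1
  have hm := hx.choose_spec.2.some
  refine outputs_conv (List.map_id x).symm (List.map_id (f x)).symm (ht.trans ?_) hm
  simp

end Pool.Agent.NPC
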